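import Pool.Agent.HeckeM.CoeffR
import Pool.Agent.CMR.ZArt

/-!
# The coefficients of the partial zeta functions are multiplicative

`zcI_mul`: for coprime `a`, `b` the ideals of norm `a b` which are prime to `m` and have Artin symbol
`σ` are the products of an ideal of norm `a` and one of norm `b` with this property.
`zcI_single`: if there is only one prime ideal `𝔮` prime to `m` which contains `p`, and its norm is
`p`, then the only ideal of norm `p ^ e` prime to `m` is `𝔮 ^ e`.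
`zcI_span`: the case of the ideal generated by a number.
-/

set_option autoImplicit false

noncomputable section

open NumberField Pool.Agent.StarkRQ Pool.Agent.StarkU Pool.Agent.HeckeM

namespace Pool.Agent.ExS

section

variable {F : Type} [Field F] [NumberField F]

private theorem conv_norm_dvd {b : Ideal (𝓞 F)} {m : ℕ}
    (h : b ∣ Ideal.span {(m : 𝓞 F)}) : ∃ d, Ideal.absNorm b ∣ m ^ d := by
  have h1 : Ideal.absNorm b ∣ Ideal.absNorm (Ideal.span {(m : 𝓞 F)}) := map_dvd Ideal.absNorm h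
  rw [Ideal.absNorm_span_singleton] at h1
  have h2 : (Algebra.norm ℤ (m : 𝓞 F)).natAbs = m ^ Module.finrank ℤ (𝓞 F) := by
    have h3 : (m : 𝓞 F) = algebraMap ℤ (𝓞 F) (m : ℤ) := by simp
    rw [h3, Algebra.norm_algebraMap, Int.natAbs_pow, Int.natAbs_natCast]
  rw [h2] at h1
  exact ⟨_, h1⟩

private theorem conv_exists {a : Ideal (𝓞 F)} {m n : ℕ}
    (hm : m ≠ 0) (hn : n ≠ 0) (hmn : m.Coprime n) (ha : Ideal.absNorm a = m * n) :
    ∃ b c : Ideal (𝓞 F), Ideal.absNorm b = m ∧ Ideal.absNorm c = n ∧ b * c = a := by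
  have h1 : a ∣ Ideal.span {(m : 𝓞 F)} * Ideal.span {(n : 𝓞 F)} := by
    rw [Ideal.span_singleton_mul_span_singleton, Ideal.dvd_span_singleton]
    have h2 := Ideal.absNorm_mem a
    rw [ha] at h2
    exact_mod_cast h2
  obtain ⟨b, c, hb, hc, habc⟩ := exists_dvd_and_dvd_of_dvd_mul h1
  have hbc : Ideal.absNorm b * Ideal.absNorm c = m * n := by
    rw [← map_mul, ← habc, ha]
  obtain ⟨d, hd⟩ := conv_norm_dvd hb
  obtain ⟨e, he⟩ := conv_norm_dvd hc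
  have hbm : Ideal.absNorm b ∣ m := by
    refine Nat.Coprime.dvd_of_dvd_mul_right (k := Ideal.absNorm b) (n := n) ?_ ?_
    · exact Nat.Coprime.coprime_dvd_left hd (Nat.Coprime.pow_left d hmn)
    · exact ⟨_, hbc.symm⟩
  have hcn : Ideal.absNorm c ∣ n := by
    refine Nat.Coprime.dvd_of_dvd_mul_left (k := Ideal.absNorm c) (m := m) ?_ ?_
    · exact Nat.Coprime.coprime_dvd_left he (Nat.Coprime.pow_left e hmn.symm)
    · exact ⟨Ideal.absNorm b, by rw [← hbc, mul_comm]⟩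
  have hb' := Nat.le_of_dvd (Nat.pos_of_ne_zero hm) hbm
  have hc' := Nat.le_of_dvd (Nat.pos_of_ne_zero hn) hcn
  refine ⟨b, c, ?_, ?_, habc.symm⟩
  · by_contra hne
    have hlt : Ideal.absNorm b < m := lt_of_le_of_ne hb' hne
    have : Ideal.absNorm b * Ideal.absNorm c < m * n := by
      calc Ideal.absNorm b * Ideal.absNorm c ≤ Ideal.absNorm b * n := Nat.mul_le_mul_left _ hc'
        _ < m * n := Nat.mul_lt_mul_of_pos_right hlt (Nat.pos_of_ne_zero hn)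
    omega
  · by_contra hne
    have hlt : Ideal.absNorm c < n := lt_of_le_of_ne hc' hne
    have : Ideal.absNorm b * Ideal.absNorm c < m * n := by
      calc Ideal.absNorm b * Ideal.absNorm c ≤ m * Ideal.absNorm c := Nat.mul_le_mul_right _ hb'
        _ < m * n := Nat.mul_lt_mul_of_pos_left hlt (Nat.pos_of_ne_zero hm)
    omega

private theorem conv_dvd {b b' c c' : Ideal (𝓞 F)}
    {m n : ℕ} (hmn : m.Coprime n) (hb : Ideal.absNorm b = m) (hc' : Ideal.absNorm c' = n)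
    (h : b * c = b' * c') : b ∣ b' := by
  have hco : IsCoprime b c' := by
    rw [Ideal.isCoprime_iff_add, Ideal.one_eq_top, Ideal.eq_top_iff_one]
    have h1 : (m : 𝓞 F) ∈ b := by
      rw [← hb]
      exact Ideal.absNorm_mem b
    have h2 : (n : 𝓞 F) ∈ c' := by
      rw [← hc']
      exact Ideal.absNorm_mem c'
    obtain ⟨u, v, huv⟩ := Nat.isCoprime_iff_coprime.mpr hmn
    have h3 : (1 : 𝓞 F) = (u : 𝓞 F) * m + (v : 𝓞 F) * n := by exact_mod_cast huv.symm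
    rw [h3]
    exact Submodule.add_mem_sup (Ideal.mul_mem_left _ _ h1) (Ideal.mul_mem_left _ _ h2)
  exact hco.dvd_of_dvd_mul_right (h ▸ Dvd.intro c rfl)

private theorem ne_bot_of_norm {a : Ideal (𝓞 F)} {n : ℕ} (hn : n ≠ 0)
    (h : Ideal.absNorm a = n) : a ≠ ⊥ := by
  rintro rfl
  exact hn (by rw [← h, Ideal.absNorm_bot])

variable {L : Type} [Field L] [NumberField L] [Algebra F L]

instance finite_zc (m : Ideal (𝓞 F)) (σ : Gal(L/F)) (n : ℕ) :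
    Finite {a : Ideal (𝓞 F) // Ideal.absNorm a = n ∧ IsCoprime a m ∧ HasArtinSymbol a σ} := by
  have h1 : {I : Ideal (𝓞 F) | Ideal.absNorm I = n}.Finite := Ideal.finite_setOfPred_absNorm_eq n
  exact (h1.subset (t := {I : Ideal (𝓞 F) | Ideal.absNorm I = n ∧ IsCoprime I m ∧
    HasArtinSymbol I σ}) fun I hI => hI.1).to_subtype

variable [IsAbelianGalois F L] {m : Ideal (𝓞 F)}

theorem zcI_mul (hur : ∀ 𝔮 : Ideal (𝓞 F), 𝔮.IsPrime → 𝔮 ≠ ⊥ → IsCoprime 𝔮 m → UnrAt L 𝔮)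
    {a b : ℕ} (ha : a ≠ 0) (hb : b ≠ 0) (hab : a.Coprime b) (σ : Gal(L/F)) :
    zcI m σ (a * b) = ∑ ρ : Gal(L/F), zcI m ρ a * zcI m (ρ⁻¹ * σ) b := by
  unfold zcI
  let f : (Σ ρ : Gal(L/F), {x : Ideal (𝓞 F) // Ideal.absNorm x = a ∧ IsCoprime x m ∧
      HasArtinSymbol x ρ} × {y : Ideal (𝓞 F) // Ideal.absNorm y = b ∧ IsCoprime y m ∧
      HasArtinSymbol y (ρ⁻¹ * σ)}) →
      {x : Ideal (𝓞 F) // Ideal.absNorm x = a * b ∧ IsCoprime x m ∧ HasArtinSymbol x σ} :=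
    fun x => ⟨x.2.1.1 * x.2.2.1, by
      rw [map_mul, x.2.1.2.1, x.2.2.2.1]
      refine ⟨rfl, x.2.1.2.2.1.mul_left x.2.2.2.2.1, ?_⟩
      have h1 := hasArt_mul x.2.1.2.2.2 x.2.2.2.2.2
      rwa [mul_inv_cancel_left] at h1⟩
  have hf : Function.Bijective f := by
    constructor
    · rintro ⟨ρ, ⟨x, hx, hxc, hxρ⟩, ⟨y, hy, hyc, hyρ⟩⟩ ⟨ρ', ⟨x', hx', hxc', hxρ'⟩,
        ⟨y', hy', hyc', hyρ'⟩⟩ hxy
      have h1 : x * y = x' * y' := congrArg Subtype.val hxy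
      have h2 : x = x' := dvd_antisymm (conv_dvd hab hx hy' h1) (conv_dvd hab hx' hy h1.symm)
      subst h2
      have h3 : x ≠ 0 := ne_bot_of_norm ha hx
      have h4 : y = y' := mul_left_cancel₀ h3 h1
      subst h4
      have h5 : ρ = ρ' := artM_unique hur h3 hxc hxρ hxρ'
      subst h5
      rfl
    · rintro ⟨z, hz, hzc, hzσ⟩
      obtain ⟨x, y, hx, hy, hxy⟩ := conv_exists ha hb hab hz
      have hx0 := ne_bot_of_norm ha hx
      have hy0 := ne_bot_of_norm hb hy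
      have hz0 := ne_bot_of_norm (mul_ne_zero ha hb) hz
      rw [← hxy] at hzc
      have hxc := hzc.of_mul_left_left
      have hyc := hzc.of_mul_left_right
      have h1 := (artM_iff hur hx0 hxc (art x : Gal(L/F))).2 rfl
      have h2 := (artM_iff hur hy0 hyc (art y : Gal(L/F))).2 rfl
      have h3 := hasArt_mul h1 h2
      rw [hxy] at h3 hzc
      have h4 := artM_unique hur hz0 hzc h3 hzσ
      refine ⟨⟨art x, ⟨x, hx, hxc, h1⟩, ⟨y, hy, hyc, ?_⟩⟩, Subtype.ext hxy⟩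
      rw [← h4, inv_mul_cancel_left]
      exact h2
  rw [← Nat.card_congr (Equiv.ofBijective f hf), Nat.card_sigma]
  exact Finset.sum_congr rfl fun h _ => Nat.card_prod _ _

/-- the difference of two coefficients -/
def dI (m : Ideal (𝓞 F)) (R σ : Gal(L/F)) (n : ℕ) : ℤ := (zcI m σ n : ℤ) - zcI m (R * σ) n

theorem dI_mul (hur : ∀ 𝔮 : Ideal (𝓞 F), 𝔮.IsPrime → 𝔮 ≠ ⊥ → IsCoprime 𝔮 m → UnrAt L 𝔮)
    {R : Gal(L/F)} (hR : R * R = 1) {a b : ℕ} (ha : a ≠ 0) (hb : b ≠ 0) (hab : a.Coprime b)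
    (σ : Gal(L/F)) :
    2 * dI m R σ (a * b) = ∑ ρ : Gal(L/F), dI m R ρ a * dI m R (ρ⁻¹ * σ) b := by
  have hRi : R⁻¹ = R := inv_eq_of_mul_eq_one_left hR
  have h0 : ∀ τ n, dI m R (R * τ) n = - dI m R τ n := by
    intro τ n
    unfold dI
    rw [← mul_assoc, hR, one_mul]
    ring
  have h1 : dI m R σ (a * b) = ∑ ρ : Gal(L/F), (zcI m ρ a : ℤ) * dI m R (ρ⁻¹ * σ) b := by
    unfold dI
    rw [zcI_mul hur ha hb hab, zcI_mul hur ha hb hab]
    push_cast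
    rw [← Finset.sum_sub_distrib]
    refine Finset.sum_congr rfl fun h _ => ?_
    rw [mul_sub]
    congr 4
    rw [← mul_assoc, ← mul_assoc, gal_comm h⁻¹ R]
  have h2 : ∑ ρ : Gal(L/F), (zcI m (R * ρ) a : ℤ) * dI m R (ρ⁻¹ * σ) b =
      - ∑ ρ : Gal(L/F), (zcI m ρ a : ℤ) * dI m R (ρ⁻¹ * σ) b := by
    rw [← Finset.sum_neg_distrib]
    refine Fintype.sum_equiv (Equiv.mulLeft R) _ _ fun ρ => ?_
    simp only [Equiv.coe_mulLeft]
    rw [mul_inv_rev, hRi, gal_comm ρ⁻¹ R, mul_assoc, h0]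
    ring
  have h3 : ∑ ρ : Gal(L/F), dI m R ρ a * dI m R (ρ⁻¹ * σ) b =
      ∑ ρ : Gal(L/F), (zcI m ρ a : ℤ) * dI m R (ρ⁻¹ * σ) b -
      ∑ ρ : Gal(L/F), (zcI m (R * ρ) a : ℤ) * dI m R (ρ⁻¹ * σ) b := by
    rw [← Finset.sum_sub_distrib]
    refine Finset.sum_congr rfl fun h _ => ?_
    rw [dI]
    ring
  rw [h3, h2, ← h1]
  ring

open scoped Classical in
/-- the ideals of norm `p ^ e` if only one prime ideal prime to `m` contains `p` -/
theorem zcI_single (hur : ∀ 𝔮 : Ideal (𝓞 F), 𝔮.IsPrime → 𝔮 ≠ ⊥ → IsCoprime 𝔮 m → UnrAt L 𝔮)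
    {p : ℕ} (hp : p.Prime) {𝔮 : Ideal (𝓞 F)} (hn : Ideal.absNorm 𝔮 = p)
    (hc : IsCoprime 𝔮 m) (hall : ∀ 𝔮' : Ideal (𝓞 F), 𝔮'.IsPrime → (p : 𝓞 F) ∈ 𝔮' →
      IsCoprime 𝔮' m → 𝔮' = 𝔮) {β : Gal(L/F)} (hβ : HasArtinSymbol 𝔮 β) (σ : Gal(L/F)) (e : ℕ) :
    zcI m σ (p ^ e) = if β ^ e = σ then 1 else 0 := by
  have hq0 : 𝔮 ≠ ⊥ := ne_bot_of_norm hp.ne_zero hn
  have hideal : ∀ (e : ℕ) (𝔞 : Ideal (𝓞 F)), Ideal.absNorm 𝔞 = p ^ e → IsCoprime 𝔞 m →
      𝔞 = 𝔮 ^ e := by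
    intro e
    induction e with
    | zero =>
      intro 𝔞 h _
      rw [pow_zero] at h ⊢
      rw [Ideal.absNorm_eq_one_iff.1 h, Ideal.one_eq_top]
    | succ e ih =>
      intro 𝔞 h hc'
      have hne : 𝔞 ≠ ⊤ := by
        rintro rfl
        rw [Ideal.absNorm_top] at h
        exact (Nat.one_lt_pow (Nat.succ_ne_zero e) hp.one_lt).ne h
      obtain ⟨𝔮', hmax, hle⟩ := Ideal.exists_le_maximal 𝔞 hne
      have hp𝔮 : (p : 𝓞 F) ∈ 𝔮' := by
        have h1 := hle (Ideal.absNorm_mem 𝔞)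
        rw [h, Nat.cast_pow] at h1
        exact hmax.isPrime.mem_of_pow_mem _ h1
      obtain ⟨𝔟, rfl⟩ := Ideal.dvd_iff_le.2 hle
      have hq := hall 𝔮' hmax.isPrime hp𝔮 hc'.of_mul_left_left
      rw [hq] at h ⊢
      rw [map_mul, hn, pow_succ'] at h
      rw [ih 𝔟 (Nat.eq_of_mul_eq_mul_left hp.pos h) hc'.of_mul_left_right, pow_succ']
  have hart : ∀ e : ℕ, HasArtinSymbol (𝔮 ^ e) (β ^ e) := by
    intro e
    induction e with
    | zero =>
      rw [pow_zero, pow_zero, Ideal.one_eq_top]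
      exact ⟨[], by simp, by simp, by simp⟩
    | succ e ih =>
      rw [pow_succ, pow_succ]
      exact hasArt_mul ih hβ
  have hce : IsCoprime (𝔮 ^ e) m := hc.pow_left
  have hne0 : 𝔮 ^ e ≠ ⊥ := pow_ne_zero _ hq0
  unfold zcI
  split_ifs with h
  · rw [Nat.card_eq_one_iff_unique]
    refine ⟨⟨fun x y => Subtype.ext ?_⟩, ⟨⟨𝔮 ^ e, ?_, hce, ?_⟩⟩⟩
    · rw [hideal e x.1 x.2.1 x.2.2.1, hideal e y.1 y.2.1 y.2.2.1]
    · rw [map_pow, hn]
    · rw [← h]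
      exact hart e
  · rw [Nat.card_eq_zero]
    refine Or.inl ⟨fun x => h ?_⟩
    have h1 := x.2.2.2
    rw [hideal e x.1 x.2.1 x.2.2.1] at h1
    exact artM_unique hur hne0 hce (hart e) h1

omit [NumberField L] [IsAbelianGalois F L] in
/-- no ideal of norm `p ^ e` is prime to `m` if all prime ideals which contain `p` divide `m` -/
theorem zcI_zero {p : ℕ} (hp : p.Prime) (hall : ∀ 𝔮 : Ideal (𝓞 F), 𝔮.IsPrime → (p : 𝓞 F) ∈ 𝔮 →
      ¬ IsCoprime 𝔮 m) (σ : Gal(L/F)) {e : ℕ} (he : e ≠ 0) : zcI m σ (p ^ e) = 0 := by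
  unfold zcI
  rw [Nat.card_eq_zero]
  refine Or.inl ⟨?_⟩
  rintro ⟨𝔞, h, hc, -⟩
  have hne : 𝔞 ≠ ⊤ := by
    rintro rfl
    rw [Ideal.absNorm_top] at h
    exact (Nat.one_lt_pow he hp.one_lt).ne h
  obtain ⟨𝔮, hmax, hle⟩ := Ideal.exists_le_maximal 𝔞 hne
  have hp𝔮 : (p : 𝓞 F) ∈ 𝔮 := by
    have h1 := hle (Ideal.absNorm_mem 𝔞)
    rw [h, Nat.cast_pow] at h1
    exact hmax.isPrime.mem_of_pow_mem _ h1
  obtain ⟨𝔟, rfl⟩ := Ideal.dvd_iff_le.2 hle
  exact hall 𝔮 hmax.isPrime hp𝔮 hc.of_mul_left_left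

omit [NumberField L] [IsAbelianGalois F L] in
theorem zcI_span (N : ℕ) (σ : Gal(L/F)) (n : ℕ) :
    zcI (Ideal.span {(N : 𝓞 F)}) σ n = zcoeff N σ n := by
  unfold zcI zcoeff
  split_ifs with h
  · refine Nat.card_congr (Equiv.subtypeEquivRight fun 𝔞 => and_congr_right fun h1 => ?_)
    constructor
    · exact fun h2 => h2.2
    · exact fun h2 => ⟨(CMR.prm_iff 𝔞).2 (by rw [h1]; exact h), h2⟩
  · rw [Nat.card_eq_zero]
    refine Or.inl ⟨?_⟩
    rintro ⟨𝔞, h1, h2, -⟩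
    exact h (by rw [← h1]; exact (CMR.prm_iff 𝔞).1 h2)

omit [NumberField L] [IsAbelianGalois F L] in
/-- if all ideals of norm `n` are prime to `m` -/
theorem zcI_eq_zcoeff {N n : ℕ} (hn : n.Coprime N)
    (h : ∀ 𝔞 : Ideal (𝓞 F), Ideal.absNorm 𝔞 = n → IsCoprime 𝔞 m) (σ : Gal(L/F)) :
    zcI m σ n = zcoeff N σ n := by
  unfold zcI zcoeff
  rw [if_pos hn]
  refine Nat.card_congr (Equiv.subtypeEquivRight fun 𝔞 => and_congr_right fun h1 => ?_)
  exact ⟨fun h2 => h2.2, fun h2 => ⟨h 𝔞 h1, h2⟩⟩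

end

end Pool.Agent.ExS
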